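import Mathlib

set_option autoImplicit false

namespace Pool.Agent.Results.MP_104382_al.Q2Fails

theorem result :
    ¬ ∃ (n m : ℕ) (A : Fin n → Set (Fin 2 → ℝ)) (B : Fin m → Set (Fin 2 → ℝ))
      (g : Fin n → Matrix.SpecialLinearGroup (Fin 2) ℤ)
      (h : Fin m → Matrix.SpecialLinearGroup (Fin 2) ℤ),
      (∀ i, A i ⊆ {v : Fin 2 → ℝ | ∀ k, 0 < v k ∧ v k < 1}) ∧
      (∀ j, B j ⊆ {v : Fin 2 → ℝ | ∀ k, 0 < v k ∧ v k < 1}) ∧
      Pairwise (fun i i' => Disjoint (A i) (A i')) ∧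
      Pairwise (fun j j' => Disjoint (B j) (B j')) ∧
      (∀ i j, Disjoint (A i) (B j)) ∧
      (⋃ i, (fun v => Matrix.mulVec
          ((g i : Matrix (Fin 2) (Fin 2) ℤ).map (Int.cast : ℤ → ℝ)) v) '' A i)
        = {v : Fin 2 → ℝ | ∀ k, 0 < v k ∧ v k < 1} ∧
      (⋃ j, (fun v => Matrix.mulVec
          ((h j : Matrix (Fin 2) (Fin 2) ℤ).map (Int.cast : ℤ → ℝ)) v) '' B j)
        = {v : Fin 2 → ℝ | ∀ k, 0 < v k ∧ v k < 1} := by
  rintro ⟨n, m, A, B, g, h, hA, hB, -, -, hAB, hg, hh⟩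
  have key : ∀ (M : Matrix.SpecialLinearGroup (Fin 2) ℤ) (u : Fin 2 → ℝ),
      (∀ k, 0 < u k ∧ u k < 1) →
      Matrix.mulVec ((M : Matrix (Fin 2) (Fin 2) ℤ).map (Int.cast : ℤ → ℝ)) u
        = (fun _ => 2 / 3) → u = fun _ => 2 / 3 := by
    intro M u hu hM
    have hd : M.1 0 0 * M.1 1 1 - M.1 0 1 * M.1 1 0 = 1 := by
      have := M.2
      rwa [Matrix.det_fin_two] at this
    have hd' : (M.1 0 0 : ℝ) * M.1 1 1 - M.1 0 1 * M.1 1 0 = 1 := by exact_mod_cast hd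
    have e0 := congrFun hM 0
    have e1 := congrFun hM 1
    simp only [Matrix.mulVec, dotProduct, Fin.sum_univ_two, Matrix.map_apply] at e0 e1
    have one : ∀ (k : ℤ) (x : ℝ), 0 < x ∧ x < 1 → x = 2 / 3 * k → x = 2 / 3 := by
      intro k x hx e
      have h1 : (0 : ℝ) < k := by linarith [hx.1]
      have h2 : (k : ℝ) < 2 := by linarith [hx.2]
      have h1' : 0 < k := by exact_mod_cast h1
      have h2' : k < 2 := by exact_mod_cast h2
      have : k = 1 := by omega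
      rw [e, this]; norm_num
    funext k
    fin_cases k
    · refine one (M.1 1 1 - M.1 0 1) _ (hu 0) ?_
      push_cast
      linear_combination (M.1 1 1 : ℝ) * e0 - (M.1 0 1 : ℝ) * e1 - u 0 * hd'
    · refine one (M.1 0 0 - M.1 1 0) _ (hu 1) ?_
      push_cast
      linear_combination (M.1 0 0 : ℝ) * e1 - (M.1 1 0 : ℝ) * e0 - u 1 * hd'
  have hv : (fun _ => 2 / 3 : Fin 2 → ℝ) ∈ {v : Fin 2 → ℝ | ∀ k, 0 < v k ∧ v k < 1} :=
    fun _ => by norm_num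
  have h1 := hv
  have h2 := hv
  rw [← hg] at h1
  rw [← hh] at h2
  obtain ⟨i, u, hu, e⟩ := Set.mem_iUnion.1 h1
  obtain ⟨j, w, hw, e'⟩ := Set.mem_iUnion.1 h2
  have a1 := key _ u (hA i hu) e
  have a2 := key _ w (hB j hw) e'
  exact Set.disjoint_left.1 (hAB i j) (a1 ▸ hu) (a2 ▸ hw)

end Pool.Agent.Results.MP_104382_al.Q2Fails
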